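import Mathlib

/-!
Confluence data on a group: a character `τ` and a function `m` with
`m (a b) ≤ max (m a) (τ a + m b)`, `m a⁻¹ = m a - τ a`, `m 1 = 0`
(the data given by an action on an `ℝ`-tree fixing an end).
-/

namespace Pool.Agent.HS73

structure Conf (H : Type*) [Group H] where
  τ : H → ℝ
  m : H → ℝ
  hτ : ∀ a b, τ (a * b) = τ a + τ b
  hm : ∀ a b, m (a * b) ≤ max (m a) (τ a + m b)
  hinv : ∀ a, m a⁻¹ = m a - τ a
  h1 : m 1 = 0

namespace Conf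

variable {H : Type*} [Group H] (D : Conf H)

lemma τ_one : D.τ 1 = 0 := by
  have := D.hτ 1 1
  rw [mul_one] at this
  linarith

lemma τ_inv (a : H) : D.τ a⁻¹ = - D.τ a := by
  have := D.hτ a a⁻¹
  rw [mul_inv_cancel, D.τ_one] at this
  linarith

lemma m_mul_le {a b : H} {s : ℝ} (ha : D.m a ≤ s) (hb : D.τ a + D.m b ≤ s) :
    D.m (a * b) ≤ s := (D.hm a b).trans (max_le ha hb)

lemma m_nonneg (a : H) : 0 ≤ D.m a := by
  have h := D.hm a a⁻¹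
  rw [mul_inv_cancel, D.h1, D.hinv] at h
  have : max (D.m a) (D.τ a + (D.m a - D.τ a)) = D.m a := by
    rw [show D.τ a + (D.m a - D.τ a) = D.m a by ring, max_self]
  rwa [this] at h

lemma τ_le (a : H) : D.τ a ≤ D.m a := by
  have h := D.m_nonneg a⁻¹
  rw [D.hinv] at h
  linarith

lemma m_mul_eq {y w : H} (hy : D.τ y = 0) (hw : D.m w < D.m y) : D.m (y * w) = D.m y := by
  apply le_antisymm
  · exact D.m_mul_le le_rfl (by rw [hy]; linarith)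
  · have h := D.hm (y * w) w⁻¹
    rw [mul_inv_cancel_right, D.hτ, D.hinv, hy] at h
    rcases le_max_iff.mp h with h | h
    · exact h
    · linarith

lemma τ_pow (t : H) (n : ℕ) : D.τ (t ^ n) = n * D.τ t := by
  induction n with
  | zero => simp [D.τ_one]
  | succ n ih => rw [pow_succ, D.hτ, ih]; push_cast; ring

lemma m_pow {t : H} (h0 : 0 ≤ D.τ t) (ht : D.m t ≤ D.τ t) (n : ℕ) :
    D.m (t ^ n) ≤ n * D.τ t := by
  induction n with
  | zero => simp [D.h1]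
  | succ n ih =>
    rw [pow_succ]
    refine D.m_mul_le (ih.trans ?_) ?_
    · push_cast; nlinarith
    · rw [D.τ_pow]; push_cast; nlinarith

lemma conj_le {a y : H} (ha : D.m a ≤ D.τ a) (hy : D.τ y = 0) :
    D.m (a * y * a⁻¹) ≤ D.τ a + D.m y := by
  have hy0 := D.m_nonneg y
  refine D.m_mul_le (D.m_mul_le (by linarith) le_rfl) ?_
  rw [D.hτ, hy, D.hinv]
  linarith

lemma conj_eq {a y : H} (ha : D.m a ≤ D.τ a) (hy : D.τ y = 0) (hy0 : 0 < D.m y) :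
    D.m (a * y * a⁻¹) = D.τ a + D.m y := by
  apply le_antisymm (D.conj_le ha hy)
  have h : y = a⁻¹ * (a * y * a⁻¹ * a) := by group
  have h2 := D.hm a⁻¹ (a * y * a⁻¹ * a)
  rw [← h, D.hinv, D.τ_inv] at h2
  rcases le_max_iff.mp h2 with h2 | h2
  · linarith
  · have h3 := D.hm (a * y * a⁻¹) a
    have h4 : D.τ (a * y * a⁻¹) = 0 := by rw [D.hτ, D.hτ, D.τ_inv, hy]; ring
    rw [h4] at h3
    rcases le_max_iff.mp h3 with h3 | h3
    · linarith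
    · linarith

/-- The local count: the elements `a v a⁻¹`, where `a` moves the base point up its own ray to
height `E`, with a common coset, are at most as many as the elements of `F`. -/
lemma local_count (v : H) (hv : D.τ v = 0) (F : Finset H)
    (hF : ∀ k, D.τ k = 0 → D.m k ≤ 0 → D.m (v⁻¹ * k * v) ≤ 0 → k * v * k⁻¹ ∈ F)
    (E : ℝ) (w₀ : H) (Z : Finset H)
    (hZ : ∀ y ∈ Z, D.m (y⁻¹ * w₀) ≤ E ∧ ∃ a, D.m a ≤ D.τ a ∧ D.τ a = E ∧ y = a * v * a⁻¹) :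
    Z.card ≤ F.card := by
  classical
  rcases Z.eq_empty_or_nonempty with rfl | ⟨y₀, hy₀⟩
  · simp
  obtain ⟨hw, a₀, ha₀, hE₀, hya₀⟩ := hZ y₀ hy₀
  refine Finset.card_le_card_of_injOn (fun y => a₀⁻¹ * y * a₀) ?_ ?_
  · intro y hy
    obtain ⟨hyw, a, ha, hE, hya⟩ := hZ y hy
    show a₀⁻¹ * y * a₀ ∈ (F : Set H)
    have e1 : a₀⁻¹ * y * a₀ = (a₀⁻¹ * a) * v * (a₀⁻¹ * a)⁻¹ := by rw [hya]; group
    rw [e1]
    have hk0 : D.τ (a₀⁻¹ * a) = 0 := by rw [D.hτ, D.τ_inv]; linarith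
    have hk : D.m (a₀⁻¹ * a) ≤ 0 :=
      D.m_mul_le (by rw [D.hinv]; linarith) (by rw [D.τ_inv]; linarith)
    have hτy : ∀ b : H, D.τ (b * v * b⁻¹) = 0 := by
      intro b; rw [D.hτ, D.hτ, D.τ_inv, hv]; ring
    have hτy0 : D.τ y = 0 := by rw [hya]; exact hτy a
    have hτy₀ : D.τ y₀ = 0 := by rw [hya₀]; exact hτy a₀
    -- m (y₀⁻¹ y) ≤ E
    have h1 : D.m (y₀⁻¹ * y) ≤ E := by
      have e : y₀⁻¹ * y = (y₀⁻¹ * w₀) * (y⁻¹ * w₀)⁻¹ := by group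
      rw [e]
      refine D.m_mul_le hw ?_
      rw [D.hinv, D.hτ, D.hτ, D.τ_inv, D.τ_inv, hτy0, hτy₀]
      linarith
    have hτyy : D.τ (y₀⁻¹ * y) = 0 := by rw [D.hτ, D.τ_inv, hτy0, hτy₀]; ring
    have h2 : D.m (a₀⁻¹ * (y₀⁻¹ * y) * a₀) ≤ 0 := by
      rw [mul_assoc]
      refine D.m_mul_le (by rw [D.hinv]; linarith) ?_
      have h3 : D.m (y₀⁻¹ * y * a₀) ≤ E := D.m_mul_le h1 (by rw [hτyy]; linarith)
      rw [D.τ_inv]; linarith
    have h4 : D.m (v⁻¹ * (a₀⁻¹ * a) * v) ≤ 0 := by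
      have e : v⁻¹ * (a₀⁻¹ * a) * v = (a₀⁻¹ * (y₀⁻¹ * y) * a₀) * (a₀⁻¹ * a) := by
        rw [hya, hya₀]; group
      rw [e]
      refine D.m_mul_le h2 ?_
      rw [D.hτ, D.hτ, D.τ_inv, hτyy]
      linarith
    exact Finset.mem_coe.mpr (hF _ hk0 hk h4)
  · intro x _ y _ h
    have : a₀⁻¹ * x * a₀ = a₀⁻¹ * y * a₀ := h
    simpa using this

end Conf

end Pool.Agent.HS73
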