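import Pool.Agent.HS73.Core
import Pool.Agent.MB73.Balls

/-!
The half-space criterion: doubling of the balls.
-/

open Pointwise

namespace Pool.Agent.HS73

lemma exists_rep {G : Type*} [Group G] (H : Subgroup G) (hfi : H.FiniteIndex) :
    ∃ (p : G → G) (P : Finset G), p 1 = 1 ∧ (∀ g, p g ∈ P) ∧ (∀ g, g * (p g)⁻¹ ∈ H) ∧
      (∀ h ∈ H, ∀ g, p (h * g) = p g) := by
  classical
  let s : Setoid G := QuotientGroup.rightRel H
  have hrel : ∀ x y : G, s x y ↔ y * x⁻¹ ∈ H := fun x y => QuotientGroup.rightRel_apply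
  have : Finite (Quotient s) := by
    have : Finite (G ⧸ H) := H.finite_quotient_of_finiteIndex
    exact Finite.of_equiv _ (QuotientGroup.quotientRightRelEquivQuotientLeftRel H).symm
  have : Fintype (Quotient s) := Fintype.ofFinite _
  let q : G → G := fun g => (Quotient.mk s g).out
  have hq : ∀ g, g * (q g)⁻¹ ∈ H := by
    intro g
    have h : s (q g) g := Quotient.exact (Quotient.out_eq (Quotient.mk s g))
    exact (hrel _ _).mp h
  refine ⟨fun g => if g ∈ H then 1 else q g,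
    insert 1 ((Finset.univ : Finset (Quotient s)).image Quotient.out), ?_, ?_, ?_, ?_⟩
  · simp [H.one_mem]
  · intro g
    by_cases h : g ∈ H
    · simp [h]
    · simp only [h, if_false]
      exact Finset.mem_insert_of_mem (Finset.mem_image_of_mem _ (Finset.mem_univ _))
  · intro g
    by_cases h : g ∈ H
    · simp [h]
    · simp only [h, if_false]
      exact hq g
  · intro h hh g
    have e : h * g ∈ H ↔ g ∈ H := Subgroup.mul_mem_cancel_left H hh
    by_cases hg : g ∈ H
    · simp [hg, e.mpr hg]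
    · have hg' : ¬ (h * g ∈ H) := fun k => hg (e.mp k)
      simp only [hg, hg', if_false]
      have : Quotient.mk s (h * g) = Quotient.mk s g := by
        apply Quotient.sound
        show s (h * g) g
        rw [hrel]
        have : g * (h * g)⁻¹ = h⁻¹ := by group
        rw [this]; exact H.inv_mem hh
      show (Quotient.mk s (h * g)).out = (Quotient.mk s g).out
      rw [this]

section

variable {G : Type*} [Group G] [DecidableEq G] {H : Subgroup G} (D : Conf H)

/-- Path lemma. -/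
lemma path (T : Finset G) (h : G → H) (p : G → G)
    (hone : h 1 = 1) (hstep : ∀ x s, h (x * s) = h x * h (p x * s))
    (R : ℝ) (hR0 : 0 ≤ R) (hR : ∀ x, ∀ s ∈ T, D.m (h (p x * s)) ≤ R)
    (θ : ℝ) (hθ : 0 ≤ θ) (n : ℕ) :
    ∀ x ∈ T ^ n, (D.τ (h x) < θ ∧ D.m (h x) ≤ θ + R) ∨
      ∃ u, ∃ a b : ℕ, a + b = n ∧ u ∈ T ^ a ∧ u⁻¹ * x ∈ T ^ b ∧ D.m (h u) ≤ θ + R ∧
        θ ≤ D.τ (h u) := by
  induction n with
  | zero =>
    intro x hx
    have hx1 : x = 1 := by simpa using hx
    subst hx1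
    rw [hone, D.τ_one, D.h1]
    by_cases h0 : 0 < θ
    · left; exact ⟨h0, by linarith⟩
    · right
      refine ⟨1, 0, 0, rfl, by simp, by simp, ?_, ?_⟩
      · rw [hone, D.h1]; linarith
      · rw [hone, D.τ_one]; linarith
  | succ n ih =>
    intro x hx
    rw [pow_succ] at hx
    obtain ⟨x', hx', s, hs, rfl⟩ := Finset.mem_mul.mp hx
    rcases ih x' hx' with ⟨h1, h2⟩ | ⟨u, a, b, hab, hu, hux, hm, ht⟩
    · have h3 : D.m (h (x' * s)) ≤ θ + R := by
        rw [hstep]
        refine D.m_mul_le h2 ?_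
        have := hR x' s hs
        linarith
      by_cases h4 : D.τ (h (x' * s)) < θ
      · left; exact ⟨h4, h3⟩
      · right
        refine ⟨x' * s, n + 1, 0, by simp, ?_, by simp, h3, not_lt.mp h4⟩
        rw [pow_succ]; exact Finset.mul_mem_mul hx' hs
    · right
      refine ⟨u, a, b + 1, by omega, hu, ?_, hm, ht⟩
      rw [pow_succ, ← mul_assoc]
      exact Finset.mul_mem_mul hux hs

/-- Every element has a prefix near its confluence height. -/
lemma exists_prefix (T : Finset G) (h : G → H) (p : G → G)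
    (hone : h 1 = 1) (hstep : ∀ x s, h (x * s) = h x * h (p x * s))
    (R : ℝ) (hR0 : 0 ≤ R) (hR : ∀ x, ∀ s ∈ T, D.m (h (p x * s)) ≤ R) (n : ℕ) (x : G)
    (hx : x ∈ T ^ n) :
    ∃ u, ∃ a b : ℕ, a + b = n ∧ u ∈ T ^ a ∧ u⁻¹ * x ∈ T ^ b ∧
      D.m (h u) ≤ D.τ (h u) + (R + 1) ∧ D.m (h x) ≤ D.τ (h u) + (R + 1) := by
  by_cases hlow : D.m (h x) ≤ R + 1
  · refine ⟨1, 0, n, by simp, by simp, by simpa using hx, ?_, ?_⟩
    · rw [hone, D.h1, D.τ_one]; linarith
    · rw [hone, D.τ_one]; linarith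
  · push Not at hlow
    rcases path D T h p hone hstep R hR0 hR (D.m (h x) - (R + 1)) (by linarith) n x hx with
      ⟨_, h2⟩ | ⟨u, a, b, hab, hu, hux, hm, ht⟩
    · linarith
    · exact ⟨u, a, b, hab, hu, hux, by linarith, by linarith⟩

/-- The half-space criterion. -/
theorem doubling (hfi : H.FiniteIndex) (t : H) (ht0 : 0 < D.τ t) (ht : D.m t ≤ D.τ t)
    (v : H) (hv : D.τ v = 0) (hv0 : 0 < D.m v) (F : Finset H)
    (hF : ∀ k, D.τ k = 0 → D.m k ≤ 0 → D.m (v⁻¹ * k * v) ≤ 0 → k * v * k⁻¹ ∈ F)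
    (T : Finset G) (h1T : (1 : G) ∈ T) (hgen : ∀ g : G, ∃ n : ℕ, g ∈ T ^ n) :
    ∃ C : ℕ, ∀ n : ℕ, 2 * (T ^ n).card ≤ (T ^ (n + C)).card := by
  classical
  obtain ⟨p, P, hp1, hpP, hpH, hph⟩ := exists_rep H hfi
  let h : G → H := fun g => ⟨g * (p g)⁻¹, hpH g⟩
  have hval : ∀ g, ((h g : H) : G) * p g = g := by intro g; simp [h]
  have hmul : ∀ (a : H) (g : G), h ((a : G) * g) = a * h g := by
    intro a g
    apply Subtype.ext
    simp only [h, Subgroup.coe_mul, hph a a.2 g]
    rw [mul_assoc]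
  have hone : h 1 = 1 := by apply Subtype.ext; simp [h, hp1]
  have hstep : ∀ x s, h (x * s) = h x * h (p x * s) := by
    intro x s
    have e : x * s = ((h x : H) : G) * (p x * s) := by rw [← mul_assoc, hval]
    rw [e, hmul]
  -- constants
  obtain ⟨R0, hR0⟩ := ((P ×ˢ T).image (fun z : G × G => D.m (h (z.1 * z.2)))).exists_le
  set R : ℝ := max R0 0 with hRdef
  have hR0' : 0 ≤ R := le_max_right _ _
  have hR : ∀ x, ∀ s ∈ T, D.m (h (p x * s)) ≤ R := by
    intro x s hs
    refine (hR0 _ ?_).trans (le_max_left _ _)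
    exact Finset.mem_image.mpr ⟨(p x, s), Finset.mem_product.mpr ⟨hpP x, hs⟩, rfl⟩
  obtain ⟨c₁, hc₁⟩ := exists_nat_ge ((R + 1) / D.τ t)
  rw [div_le_iff₀ ht0] at hc₁
  obtain ⟨j, hj⟩ := exists_nat_ge (D.m v / D.τ t)
  rw [div_le_iff₀ ht0] at hj
  have hj1 : 1 ≤ j := by
    rcases Nat.eq_zero_or_pos j with h0 | h0
    · subst h0; simp at hj; linarith
    · exact h0
  set k : ℕ := F.card with hk
  have hvF : v ∈ F := by
    have := hF 1 D.τ_one (by rw [D.h1]) (by simp [D.h1])
    simpa using this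
  have hk1 : 0 < k := Finset.card_pos.mpr ⟨v, hvF⟩
  set M : ℕ := 2 * (k * k) with hM
  let c : ℕ → ℕ := fun i => c₁ + i * j
  let V : ℕ → H := fun i => t ^ (c i) * v * (t ^ (c i))⁻¹
  let I : Finset G := (P ×ˢ Finset.range M).image
    (fun z : G × ℕ => z.1⁻¹ * ((V M * V z.2 : H) : G) * z.1)
  obtain ⟨C, hC⟩ := Pool.Agent.MB73.exists_finset_subset_pow T h1T I (fun g _ => hgen g)
  refine ⟨C, fun n => ?_⟩
  have hpre : ∀ x, ∃ u, x ∈ T ^ n → ∃ a b : ℕ, a + b = n ∧ u ∈ T ^ a ∧ u⁻¹ * x ∈ T ^ b ∧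
      D.m (h u) ≤ D.τ (h u) + (R + 1) ∧ D.m (h x) ≤ D.τ (h u) + (R + 1) := by
    intro x
    by_cases hx : x ∈ T ^ n
    · obtain ⟨u, hu⟩ := exists_prefix D T h p hone hstep R hR0' hR n x hx
      exact ⟨u, fun _ => hu⟩
    · exact ⟨1, fun h' => absurd h' hx⟩
  choose u hu using hpre
  let Y : G → ℕ → H := fun x i => (h (u x) * t ^ (c i)) * v * (h (u x) * t ^ (c i))⁻¹
  let Φ : G × ℕ → G := fun z => ((Y z.1 M * Y z.1 z.2 : H) : G) * z.1
  have hΦmem : ∀ z ∈ (T ^ n) ×ˢ Finset.range M, Φ z ∈ T ^ (n + C) := by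
    rintro ⟨x, i⟩ hz
    rw [Finset.mem_product] at hz
    obtain ⟨hx, hi⟩ := hz
    obtain ⟨a, b, hab, hua, hub, -, -⟩ := hu x hx
    have e : Φ (x, i) = u x * ((p (u x))⁻¹ * ((V M * V i : H) : G) * p (u x)) * ((u x)⁻¹ * x) := by
      have e1 : (u x : G) = ((h (u x) : H) : G) * p (u x) := (hval (u x)).symm
      simp only [Φ, Y, V, Subgroup.coe_mul, Subgroup.coe_inv, SubmonoidClass.coe_pow]
      generalize ((h (u x) : H) : G) = w at e1 ⊢
      generalize p (u x) = q at e1 ⊢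
      rw [e1]
      group
    rw [e, show n + C = a + C + b by omega, pow_add, pow_add]
    refine Finset.mul_mem_mul (Finset.mul_mem_mul hua ?_) hub
    exact hC (Finset.mem_image.mpr ⟨(p (u x), i), Finset.mem_product.mpr ⟨hpP _, hi⟩, rfl⟩)
  have hhΦ : ∀ x i, h (Φ (x, i)) = Y x M * Y x i * h x := fun x i => hmul _ _
  have hpΦ : ∀ x i, p (Φ (x, i)) = p x := fun x i => hph _ (Subtype.mem _) _
  -- heights
  have hτa : ∀ x i, D.τ (h (u x) * t ^ (c i)) = D.τ (h (u x)) + (c i) * D.τ t := by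
    intro x i; rw [D.hτ, D.τ_pow]
  have hci : ∀ i, (c₁ : ℝ) * D.τ t ≤ (c i : ℝ) * D.τ t := by
    intro i
    apply mul_le_mul_of_nonneg_right _ ht0.le
    exact_mod_cast Nat.le_add_right _ _
  have hma : ∀ x ∈ T ^ n, ∀ i, D.m (h (u x) * t ^ (c i)) ≤ D.τ (h (u x) * t ^ (c i)) := by
    intro x hx i
    obtain ⟨a, b, -, -, -, h1, -⟩ := hu x hx
    rw [hτa]
    refine D.m_mul_le ?_ ?_
    · have := hci i; linarith
    · have := D.m_pow ht0.le ht (c i); linarith
  have hY0 : ∀ x i, D.τ (Y x i) = 0 := by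
    intro x i
    simp only [Y]
    rw [D.hτ, D.hτ _ v, D.τ_inv, hv]; ring
  have hYm : ∀ x ∈ T ^ n, ∀ i, D.m (Y x i) = D.τ (h (u x)) + (c i) * D.τ t + D.m v := by
    intro x hx i
    have := D.conj_eq (hma x hx i) hv hv0
    rw [hτa] at this
    exact this
  have hhx : ∀ x ∈ T ^ n, ∀ i, D.m (h x) ≤ D.τ (h (u x)) + (c i) * D.τ t := by
    intro x hx i
    obtain ⟨a, b, -, -, -, -, h1⟩ := hu x hx
    have := hci i
    linarith
  have hYh : ∀ x ∈ T ^ n, ∀ i, D.m (Y x i * h x) = D.τ (h (u x)) + (c i) * D.τ t + D.m v := by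
    intro x hx i
    rw [D.m_mul_eq (hY0 x i), hYm x hx i]
    rw [hYm x hx i]
    have := hhx x hx i
    linarith
  have hcM : ∀ i < M, (c i : ℝ) * D.τ t + D.m v ≤ (c M : ℝ) * D.τ t := by
    intro i hi
    have e : (c i : ℝ) + j ≤ c M := by
      have : c i + j ≤ c M := by
        simp only [c]
        have : (i + 1) * j ≤ M * j := Nat.mul_le_mul_right j hi
        nlinarith
      exact_mod_cast this
    nlinarith
  have hΦm : ∀ x ∈ T ^ n, ∀ i < M,
      D.m (h (Φ (x, i))) = D.τ (h (u x)) + (c M) * D.τ t + D.m v := by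
    intro x hx i hi
    rw [hhΦ, mul_assoc, D.m_mul_eq (hY0 x M), hYm x hx M]
    rw [hYm x hx M, hYh x hx i]
    have := hcM i hi
    linarith
  -- counting
  have hcount : ((T ^ n) ×ˢ Finset.range M).card ≤
      (k * k) * (((T ^ n) ×ˢ Finset.range M).image Φ).card := by
    apply Finset.card_le_mul_card_image
    intro g' _
    set A : Finset (G × ℕ) := ((T ^ n) ×ˢ Finset.range M).filter (fun z => Φ z = g') with hA
    have hAmem : ∀ z ∈ A, z.1 ∈ T ^ n ∧ z.2 < M ∧ Φ z = g' := by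
      intro z hz
      rw [hA, Finset.mem_filter, Finset.mem_product, Finset.mem_range] at hz
      exact ⟨hz.1.1, hz.1.2, hz.2⟩
    have h1 : A.card ≤ k * (A.image (fun z => Y z.1 M)).card := by
      apply Finset.card_le_mul_card_image
      intro y₀ _
      set B : Finset (G × ℕ) := A.filter (fun z => Y z.1 M = y₀) with hB
      have hBmem : ∀ z ∈ B, z.1 ∈ T ^ n ∧ z.2 < M ∧ Φ z = g' ∧ Y z.1 M = y₀ := by
        intro z hz
        rw [hB, Finset.mem_filter] at hz
        obtain ⟨q1, q2, q3⟩ := hAmem z hz.1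
        exact ⟨q1, q2, q3, hz.2⟩
      have hw : ∀ z ∈ B, Y z.1 z.2 * h z.1 = y₀⁻¹ * h g' := by
        intro z hz
        obtain ⟨q1, q2, q3, q4⟩ := hBmem z hz
        rw [← q3, ← q4, show Φ z = Φ (z.1, z.2) from rfl, hhΦ]
        group
      have hinj : B.card = (B.image (fun z => Y z.1 z.2)).card := by
        symm
        apply Finset.card_image_of_injOn
        rintro ⟨x, i⟩ hz ⟨x', i'⟩ hz' heq
        have heq' : Y x i = Y x' i' := heq
        obtain ⟨q1, q2, q3, q4⟩ := hBmem _ (Finset.mem_coe.mp hz)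
        obtain ⟨q1', q2', q3', q4'⟩ := hBmem _ (Finset.mem_coe.mp hz')
        have w1 := hw _ (Finset.mem_coe.mp hz)
        have w2 := hw _ (Finset.mem_coe.mp hz')
        simp only at q1 q2 q3 q4 q1' q2' q3' q4' w1 w2
        have e1 : h x = h x' := by
          have : Y x i * h x = Y x' i' * h x' := w1.trans w2.symm
          rw [heq'] at this
          exact mul_left_cancel this
        have e2 : p x = p x' := by rw [← hpΦ x i, ← hpΦ x' i', q3, q3']
        have e3 : x = x' := by rw [← hval x, ← hval x', e1, e2]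
        subst e3
        have e4 : (c i : ℝ) * D.τ t = (c i' : ℝ) * D.τ t := by
          have k1 := hYh x q1 i
          have k2 := hYh x q1 i'
          rw [w1] at k1
          rw [w2] at k2
          linarith
        have e5 : (c i : ℝ) = c i' := mul_right_cancel₀ ht0.ne' e4
        have e6 : c i = c i' := by exact_mod_cast e5
        have e7 : i = i' := by
          simp only [c] at e6
          have : i * j = i' * j := by omega
          exact Nat.eq_of_mul_eq_mul_right hj1 this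
        rw [e7]
      rw [hinj]
      refine D.local_count v hv F hF (D.m (y₀⁻¹ * h g') - D.m v) (y₀⁻¹ * h g') _ ?_
      intro y hy
      obtain ⟨z, hz, rfl⟩ := Finset.mem_image.mp hy
      obtain ⟨q1, q2, q3, q4⟩ := hBmem z hz
      have w1 := hw z hz
      have k1 := hYh z.1 q1 z.2
      rw [w1] at k1
      refine ⟨?_, h (u z.1) * t ^ (c z.2), hma z.1 q1 z.2, ?_, rfl⟩
      · rw [← w1, inv_mul_cancel_left, w1, k1]
        have := hhx z.1 q1 z.2
        linarith
      · rw [hτa, k1]; ring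
    have h2 : (A.image (fun z => Y z.1 M)).card ≤ k := by
      refine D.local_count v hv F hF (D.m (h g') - D.m v) (h g') _ ?_
      intro y hy
      obtain ⟨z, hz, rfl⟩ := Finset.mem_image.mp hy
      obtain ⟨q1, q2, q3⟩ := hAmem z hz
      have k0 := hΦm z.1 q1 z.2 q2
      rw [show Φ (z.1, z.2) = g' from q3] at k0
      have k1 : (Y z.1 M)⁻¹ * h g' = Y z.1 z.2 * h z.1 := by
        rw [← q3, show Φ z = Φ (z.1, z.2) from rfl, hhΦ]
        group
      refine ⟨?_, h (u z.1) * t ^ (c M), hma z.1 q1 M, ?_, rfl⟩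
      · rw [k1, hYh z.1 q1 z.2, k0]
        have := hcM z.2 q2
        linarith
      · rw [hτa, k0]; ring
    calc A.card ≤ k * (A.image (fun z => Y z.1 M)).card := h1
      _ ≤ k * k := Nat.mul_le_mul_left k h2
  have himg : (((T ^ n) ×ˢ Finset.range M).image Φ).card ≤ (T ^ (n + C)).card := by
    apply Finset.card_le_card
    intro g hg
    obtain ⟨z, hz, rfl⟩ := Finset.mem_image.mp hg
    exact hΦmem z hz
  rw [Finset.card_product, Finset.card_range, hM] at hcount
  have hkk : 0 < k * k := Nat.mul_pos hk1 hk1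
  have h3 : (k * k) * (2 * (T ^ n).card) ≤ (k * k) * (T ^ (n + C)).card := by
    calc (k * k) * (2 * (T ^ n).card) = (T ^ n).card * (2 * (k * k)) := by ring
      _ ≤ (k * k) * (((T ^ n) ×ˢ Finset.range (2 * (k * k))).image Φ).card := hcount
      _ ≤ (k * k) * (T ^ (n + C)).card := Nat.mul_le_mul_left _ himg
  exact Nat.le_of_mul_le_mul_left h3 hkk

end

end Pool.Agent.HS73
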