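import Pool.Agent.HS73.OfRel
import Pool.Agent.HS73.Main

/-!
The criterion for an ascending filtration `t ^ n K₀ t ^ (-n)` of the kernel of a map to `ℤ`.
-/

open Pointwise

namespace Pool.Agent.HS73

section

variable {H : Type*} [Group H] (τ : H → ℤ) (K₀ : Subgroup H) (t : H)

lemma shift_mem (hsh : ∀ k ∈ K₀, t⁻¹ * k * t ∈ K₀) (n : ℕ) :
    ∀ k ∈ K₀, t ^ (-(n : ℤ)) * k * t ^ (n : ℤ) ∈ K₀ := by
  induction n with
  | zero => intro k hk; simpa using hk
  | succ n ih =>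
    intro k hk
    have h := ih _ (hsh k hk)
    have e : t ^ (-((n + 1 : ℕ) : ℤ)) * k * t ^ ((n + 1 : ℕ) : ℤ) =
        t ^ (-(n : ℤ)) * (t⁻¹ * k * t) * t ^ (n : ℤ) := by
      push_cast
      group
    rw [e]; exact h

lemma shift_mem' (hsh : ∀ k ∈ K₀, t⁻¹ * k * t ∈ K₀) (g : H) (r n N : ℤ) (hnN : n ≤ N)
    (h : t ^ (-n) * g * t ^ (n - r) ∈ K₀) : t ^ (-N) * g * t ^ (N - r) ∈ K₀ := by
  obtain ⟨d, rfl⟩ := Int.le.dest hnN
  have := shift_mem K₀ t hsh d _ h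
  have e : t ^ (-(n + (d : ℤ))) * g * t ^ (n + (d : ℤ) - r) =
      t ^ (-(d : ℤ)) * (t ^ (-n) * g * t ^ (n - r)) * t ^ (d : ℤ) := by
    group
  rw [e]; exact this

/-- The relation data of an ascending filtration. -/
def k0Data (hτ : ∀ a b, τ (a * b) = τ a + τ b) (hsh : ∀ k ∈ K₀, t⁻¹ * k * t ∈ K₀)
    (ht : τ t = 1)
    (hun : ∀ h, τ h = 0 → ∃ n : ℕ, t ^ (-(n : ℤ)) * h * t ^ (n : ℤ) ∈ K₀) : RelData H where
  τ := fun g => (τ g : ℝ)
  L := fun s g => ∃ n : ℤ, (n : ℝ) ≤ s ∧ 0 ≤ n ∧ τ g ≤ n ∧ t ^ (-n) * g * t ^ (n - τ g) ∈ K₀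
  hτ := by intro a b; rw [hτ]; push_cast; ring
  nonneg := by
    rintro s g ⟨n, h1, h2, -, -⟩
    exact le_trans (by exact_mod_cast h2) h1
  mul := by
    rintro s g h ⟨n, g1, g2, g3, g4⟩ ⟨k, h1, h2, h3, h4⟩
    refine ⟨max n (k + τ g), ?_, g2.trans (le_max_left _ _), ?_, ?_⟩
    · push_cast
      exact max_le g1 (by linarith)
    · rw [hτ]
      have := le_max_right n (k + τ g)
      linarith
    · set N := max n (k + τ g) with hN
      have e : t ^ (-N) * (g * h) * t ^ (N - τ (g * h)) =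
          (t ^ (-N) * g * t ^ (N - τ g)) * (t ^ (-(N - τ g)) * h * t ^ ((N - τ g) - τ h)) := by
        rw [hτ]; group
      rw [e]
      refine K₀.mul_mem (shift_mem' K₀ t hsh g _ n N (le_max_left _ _) g4)
        (shift_mem' K₀ t hsh h _ k (N - τ g) ?_ h4)
      have := le_max_right n (k + τ g)
      linarith
  inv := by
    rintro s g ⟨n, g1, g2, g3, g4⟩
    have h0 : τ 1 = 0 := by
      have := hτ 1 1
      rw [mul_one] at this
      linarith
    have hi : τ g⁻¹ = - τ g := by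
      have := hτ g g⁻¹
      rw [mul_inv_cancel, h0] at this
      linarith
    refine ⟨n - τ g, by push_cast; linarith, by linarith, by rw [hi]; linarith, ?_⟩
    have e : t ^ (-(n - τ g)) * g⁻¹ * t ^ (n - τ g - τ g⁻¹) =
        (t ^ (-n) * g * t ^ (n - τ g))⁻¹ := by
      rw [hi]; group
    rw [e]; exact K₀.inv_mem g4
  ex := by
    intro g
    have htp : ∀ n : ℕ, τ (t ^ n) = n := by
      intro n
      induction n with
      | zero =>
        have := hτ 1 1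
        rw [mul_one] at this
        simp only [pow_zero, Nat.cast_zero]
        linarith
      | succ n ih => rw [pow_succ, hτ, ih, ht]; push_cast; ring
    have h0 : τ 1 = 0 := by simpa using htp 0
    have hinv : ∀ x, τ x⁻¹ = - τ x := by
      intro x
      have := hτ x x⁻¹
      rw [mul_inv_cancel, h0] at this
      linarith
    have htz : ∀ z : ℤ, τ (t ^ z) = z := by
      intro z
      obtain ⟨n, rfl | rfl⟩ := Int.eq_nat_or_neg z
      · rw [zpow_natCast, htp]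
      · rw [zpow_neg, zpow_natCast, hinv, htp]
    obtain ⟨n, hn⟩ := hun (g * t ^ (-τ g)) (by rw [hτ, htz]; ring)
    refine ⟨(max (n : ℤ) (τ g) : ℤ), max n (τ g), le_rfl, ?_, le_max_right _ _, ?_⟩
    · exact le_trans (Int.natCast_nonneg n) (le_max_left _ _)
    · apply shift_mem' K₀ t hsh g _ n _ (le_max_left _ _)
      have e : t ^ (-(n : ℤ)) * g * t ^ ((n : ℤ) - τ g) =
          t ^ (-(n : ℤ)) * (g * t ^ (-τ g)) * t ^ (n : ℤ) := by group
      rw [e]; exact hn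
  one := by
    have h0 : τ 1 = 0 := by
      have := hτ 1 1
      rw [mul_one] at this
      linarith
    exact ⟨0, by simp, le_rfl, h0.le, by simp [h0]⟩
  mono := by
    rintro s s' g ⟨n, g1, g2, g3, g4⟩ hss
    exact ⟨n, g1.trans hss, g2, g3, g4⟩

end

theorem k0_doubling {G : Type*} [Group G] [DecidableEq G] (H : Subgroup G)
    (hfi : H.FiniteIndex) (τ : H → ℤ) (K₀ : Subgroup H) (t v : H)
    (hτ : ∀ a b, τ (a * b) = τ a + τ b) (hsh : ∀ k ∈ K₀, t⁻¹ * k * t ∈ K₀) (ht : τ t = 1)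
    (hun : ∀ h, τ h = 0 → ∃ n : ℕ, t ^ (-(n : ℤ)) * h * t ^ (n : ℤ) ∈ K₀)
    (hv : τ v = 0) (hvK : v ∉ K₀)
    (hfin : {y | ∃ k ∈ K₀, v⁻¹ * k * v ∈ K₀ ∧ y = k * v * k⁻¹}.Finite)
    (T : Finset G) (h1T : (1 : G) ∈ T) (hgen : ∀ g : G, ∃ n : ℕ, g ∈ T ^ n) :
    ∃ C : ℕ, ∀ n : ℕ, 2 * (T ^ n).card ≤ (T ^ (n + C)).card := by
  classical
  set E : RelData H := k0Data τ K₀ t hτ hsh ht hun with hE
  have hmem : ∀ k, τ k = 0 → E.m k ≤ 0 → k ∈ K₀ := by
    intro k hk hm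
    obtain ⟨n, h1, h2, h3, h4⟩ := E.rel_of_lt (lt_of_le_of_lt hm (show (0 : ℝ) < 1 / 2 by norm_num))
    have h5 : n = 0 := by
      have : (n : ℝ) < 1 := by linarith
      have : n < 1 := by exact_mod_cast this
      omega
    subst h5
    simpa [hk] using h4
  have hτi : ∀ x, τ x⁻¹ = - τ x := by
    intro x
    have h1 := E.τ_inv x
    have : ((τ x⁻¹ : ℤ) : ℝ) = -((τ x : ℤ) : ℝ) := h1
    exact_mod_cast this
  refine doubling E.toConf hfi t (by show (0 : ℝ) < ((τ t : ℤ) : ℝ); rw [ht]; norm_num) ?_ v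
    (by show ((τ v : ℤ) : ℝ) = 0; rw [hv]; norm_num) ?_ hfin.toFinset ?_ T h1T hgen
  · show E.m t ≤ ((τ t : ℤ) : ℝ)
    apply E.m_le
    refine ⟨1, by rw [ht], by norm_num, by rw [ht], ?_⟩
    rw [ht]
    simp [K₀.one_mem]
  · show 0 < E.m v
    by_contra hn
    push Not at hn
    exact hvK (hmem v hv hn)
  · intro k hk hkm hkv
    have hk0 : τ k = 0 := by
      have : ((τ k : ℤ) : ℝ) = 0 := hk
      exact_mod_cast this
    rw [Set.Finite.mem_toFinset]
    refine ⟨k, hmem k hk0 hkm, hmem _ ?_ hkv, rfl⟩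
    rw [hτ, hτ, hτi, hv, hk0]; ring

end Pool.Agent.HS73
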