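import Pool.Agent.HS73.Core

/-!
Confluence data from a family of relations.
-/

namespace Pool.Agent.HS73

/-- `L s g` : the confluence height of `g` is at most `s`. -/
structure RelData (H : Type*) [Group H] where
  τ : H → ℝ
  L : ℝ → H → Prop
  hτ : ∀ a b, τ (a * b) = τ a + τ b
  nonneg : ∀ s g, L s g → 0 ≤ s
  mul : ∀ s g h, L s g → L (s - τ g) h → L s (g * h)
  inv : ∀ s g, L s g → L (s - τ g) g⁻¹
  ex : ∀ g, ∃ s, L s g
  one : L 0 1
  mono : ∀ s s' g, L s g → s ≤ s' → L s' g

namespace RelData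

variable {H : Type*} [Group H] (E : RelData H)

noncomputable def m (g : H) : ℝ := sInf {s | E.L s g}

lemma bdd (g : H) : BddBelow {s | E.L s g} := ⟨0, fun s hs => E.nonneg s g hs⟩

lemma m_le {s : ℝ} {g : H} (h : E.L s g) : E.m g ≤ s := csInf_le (E.bdd g) h

lemma rel_of_lt {s : ℝ} {g : H} (h : E.m g < s) : E.L s g := by
  obtain ⟨s', hs', hlt⟩ := exists_lt_of_csInf_lt (E.ex g) h
  exact E.mono s' s g hs' hlt.le

lemma τ_inv (a : H) : E.τ a⁻¹ = - E.τ a := by
  have h1 := E.hτ 1 1
  rw [mul_one] at h1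
  have := E.hτ a a⁻¹
  rw [mul_inv_cancel] at this
  linarith

lemma m_inv_le (a : H) : E.m a⁻¹ ≤ E.m a - E.τ a := by
  refine le_of_forall_gt_imp_ge_of_dense (fun s hs => ?_)
  have h : E.L (s + E.τ a) a := E.rel_of_lt (by linarith)
  have h2 := E.inv _ _ h
  have h3 : s + E.τ a - E.τ a = s := by ring
  rw [h3] at h2
  exact E.m_le h2

noncomputable def toConf : Conf H where
  τ := E.τ
  m := E.m
  hτ := E.hτ
  hm := by
    intro a b
    refine le_of_forall_gt_imp_ge_of_dense (fun s hs => ?_)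
    have h1 : E.L s a := E.rel_of_lt (lt_of_le_of_lt (le_max_left _ _) hs)
    have h2 : E.L (s - E.τ a) b := by
      apply E.rel_of_lt
      have := lt_of_le_of_lt (le_max_right _ _) hs
      linarith
    exact E.m_le (E.mul s a b h1 h2)
  hinv := by
    intro a
    apply le_antisymm (E.m_inv_le a)
    have := E.m_inv_le a⁻¹
    rw [inv_inv, E.τ_inv] at this
    linarith
  h1 := by
    apply le_antisymm (E.m_le E.one)
    exact le_csInf (E.ex 1) (fun s hs => E.nonneg s 1 hs)

end RelData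

end Pool.Agent.HS73
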