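import Mathlib

/-!
Groups acting on the line by order automorphisms which are one-sided affine at each point:
the maximal component argument.
-/

open Filter Topology

namespace Pool.Agent.HS73

/-- `f` is a piecewise linear homeomorphism of `[0,1]`, extended to `ℝ` by the identity: it is the
identity outside `(0,1)`, and there is a finite set `F` such that `f` is affine on every closed
interval whose interior contains no point of `F`. -/
def IsPL (f : ℝ ≃o ℝ) : Prop :=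
  (∀ x, x ∉ Set.Ioo (0 : ℝ) 1 → f x = x) ∧
  ∃ F : Finset ℝ, ∀ x y, x ≤ y → (∀ z ∈ F, z ∉ Set.Ioo x y) →
    ∃ a b : ℝ, ∀ z ∈ Set.Icc x y, f z = a * z + b

/-- One-sided affine at each point, and the identity outside `(0,1)`. -/
structure OneSided (f : ℝ ≃o ℝ) : Prop where
  out : ∀ x, x ∉ Set.Ioo (0 : ℝ) 1 → f x = x
  right : ∀ c, ∃ ε > 0, ∃ s > 0, ∀ x, 0 ≤ x → x ≤ ε → f (c + x) = f c + s * x
  left : ∀ c, ∃ ε > 0, ∃ s > 0, ∀ x, 0 ≤ x → x ≤ ε → f (c - x) = f c - s * x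

lemma exists_gap_right (F : Finset ℝ) (c : ℝ) :
    ∃ ε > 0, ∀ z ∈ F, z ∉ Set.Ioo c (c + ε) := by
  induction F using Finset.induction_on with
  | empty => exact ⟨1, one_pos, by simp⟩
  | insert a s _ ih =>
    obtain ⟨ε, hε, h⟩ := ih
    by_cases hc : c < a
    · refine ⟨min ε (a - c), lt_min hε (by linarith), ?_⟩
      intro z hz hz2
      rcases Finset.mem_insert.mp hz with rfl | hz
      · have := hz2.2.trans_le (add_le_add_right (min_le_right ε (z - c)) c)
        linarith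
      · exact h z hz ⟨hz2.1, hz2.2.trans_le (add_le_add_right (min_le_left ε (a - c)) c)⟩
    · refine ⟨ε, hε, ?_⟩
      intro z hz hz2
      rcases Finset.mem_insert.mp hz with rfl | hz
      · exact hc hz2.1
      · exact h z hz hz2

lemma exists_gap_left (F : Finset ℝ) (c : ℝ) :
    ∃ ε > 0, ∀ z ∈ F, z ∉ Set.Ioo (c - ε) c := by
  induction F using Finset.induction_on with
  | empty => exact ⟨1, one_pos, by simp⟩
  | insert a s _ ih =>
    obtain ⟨ε, hε, h⟩ := ih
    by_cases hc : a < c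
    · refine ⟨min ε (c - a), lt_min hε (by linarith), ?_⟩
      intro z hz hz2
      have m1 := min_le_left ε (c - a)
      have m2 := min_le_right ε (c - a)
      rcases Finset.mem_insert.mp hz with rfl | hz
      · have := hz2.1
        linarith
      · exact h z hz ⟨by linarith [hz2.1], hz2.2⟩
    · refine ⟨ε, hε, ?_⟩
      intro z hz hz2
      rcases Finset.mem_insert.mp hz with rfl | hz
      · exact hc hz2.2
      · exact h z hz hz2

lemma IsPL.oneSided {f : ℝ ≃o ℝ} (h : IsPL f) : OneSided f := by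
  obtain ⟨hout, F, hF⟩ := h
  refine ⟨hout, ?_, ?_⟩
  · intro c
    obtain ⟨ε, hε, hgap⟩ := exists_gap_right F c
    obtain ⟨a, b, hab⟩ := hF c (c + ε) (by linarith) hgap
    have h1 := hab c ⟨le_rfl, by linarith⟩
    have h2 := hab (c + ε) ⟨by linarith, le_rfl⟩
    have h3 : f c < f (c + ε) := f.strictMono (by linarith)
    refine ⟨ε, hε, a, ?_, ?_⟩
    · rw [h1, h2] at h3
      by_contra hn
      push Not at hn
      nlinarith
    · intro x hx0 hx
      rw [hab (c + x) ⟨by linarith, by linarith⟩, h1]; ring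
  · intro c
    obtain ⟨ε, hε, hgap⟩ := exists_gap_left F c
    obtain ⟨a, b, hab⟩ := hF (c - ε) c (by linarith) hgap
    have h1 := hab c ⟨by linarith, le_rfl⟩
    have h2 := hab (c - ε) ⟨le_rfl, by linarith⟩
    have h3 : f (c - ε) < f c := f.strictMono (by linarith)
    refine ⟨ε, hε, a, ?_, ?_⟩
    · rw [h1, h2] at h3
      by_contra hn
      push Not at hn
      nlinarith
    · intro x hx0 hx
      rw [hab (c - x) ⟨by linarith, by linarith⟩, h1]; ring

lemma ev_of_sides {P : ℝ → Prop} {a ε ε' : ℝ} (hε : 0 < ε) (hε' : 0 < ε')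
    (h1 : ∀ x, 0 ≤ x → x ≤ ε → P (a + x)) (h2 : ∀ x, 0 ≤ x → x ≤ ε' → P (a - x)) :
    ∀ᶠ x in 𝓝 a, P x := by
  filter_upwards [Ioo_mem_nhds (show a - ε' < a by linarith) (show a < a + ε by linarith)]
    with x hx
  rcases le_total a x with h | h
  · have := h1 (x - a) (by linarith) (by linarith [hx.2])
    simpa using this
  · have := h2 (a - x) (by linarith) (by linarith [hx.1])
    simpa using this

section

variable {H : Type*} [Group H] (ρ : H →* (ℝ ≃o ℝ))

lemma act_mul (g h : H) (x : ℝ) : ρ (g * h) x = ρ g (ρ h x) := by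
  rw [map_mul]; rfl

lemma act_one (x : ℝ) : ρ 1 x = x := by
  rw [map_one]; rfl

lemma act_inv_self (g : H) (x : ℝ) : ρ g⁻¹ (ρ g x) = x := by
  rw [← act_mul, inv_mul_cancel, act_one]

lemma act_self_inv (g : H) (x : ℝ) : ρ g (ρ g⁻¹ x) = x := by
  rw [← act_mul, mul_inv_cancel, act_one]

/-- Global fixed points. -/
def Fx : Set ℝ := {x | ∀ g, ρ g x = x}

lemma isClosed_Fx : IsClosed (Fx ρ) := by
  have : Fx ρ = ⋂ g, {x | ρ g x = x} := by
    ext x; simp [Fx]
  rw [this]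
  exact isClosed_iInter (fun g => isClosed_eq (ρ g).continuous continuous_id)

/-- Elements of `L` which are the identity near each global fixed point. -/
def NN (L : Subgroup H) (v : H) : Prop :=
  v ∈ L ∧ ∀ a ∈ Fx ρ, ∀ᶠ x in 𝓝 a, ρ v x = x

lemma tendsto_act {a : ℝ} (ha : a ∈ Fx ρ) (g : H) : Tendsto (fun x => ρ g x) (𝓝 a) (𝓝 a) := by
  have h := (ρ g).continuous.tendsto a
  rwa [ha g] at h

lemma NN.conj {L : Subgroup H} (hL : L.Normal) {v : H} (hv : NN ρ L v) (g : H) :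
    NN ρ L (g * v * g⁻¹) := by
  refine ⟨hL.conj_mem v hv.1 g, fun a ha => ?_⟩
  filter_upwards [(tendsto_act ρ ha g⁻¹).eventually (hv.2 a ha)] with x hx
  rw [act_mul, act_mul, hx, act_self_inv]

lemma NN.comm {L : Subgroup H} (hL : L.Normal) {v : H} (hv : NN ρ L v) (g : H) :
    NN ρ L (g * v * g⁻¹ * v⁻¹) := by
  have h1 := NN.conj ρ hL hv g
  refine ⟨L.mul_mem h1.1 (L.inv_mem hv.1), fun a ha => ?_⟩
  filter_upwards [h1.2 a ha, hv.2 a ha] with x hx hx2
  have : ρ v⁻¹ x = x := by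
    conv_lhs => rw [← hx2]
    exact act_inv_self ρ v x
  rw [act_mul, this, hx]

lemma NN.of_comm (hρ : ∀ g, OneSided (ρ g)) {L : Subgroup H} {g h : H} (hg : g ∈ L)
    (hh : h ∈ L) : NN ρ L (g * h * (h * g)⁻¹) := by
  refine ⟨L.mul_mem (L.mul_mem hg hh) (L.inv_mem (L.mul_mem hh hg)), fun a ha => ?_⟩
  have key : ∀ᶠ x in 𝓝 a, ρ (g * h) x = ρ (h * g) x := by
    obtain ⟨e1, he1, s1, hs1, H1⟩ := (hρ g).right a
    obtain ⟨e2, he2, s2, hs2, H2⟩ := (hρ h).right a
    obtain ⟨e3, he3, s3, hs3, H3⟩ := (hρ g).left a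
    obtain ⟨e4, he4, s4, hs4, H4⟩ := (hρ h).left a
    rw [ha g] at H1 H3
    rw [ha h] at H2 H4
    refine ev_of_sides (ε := min (min e1 e2) (min (e1 / s2) (e2 / s1)))
      (ε' := min (min e3 e4) (min (e3 / s4) (e4 / s3))) (by positivity) (by positivity) ?_ ?_
    · intro x hx0 hx
      have k1 : x ≤ e1 := hx.trans ((min_le_left _ _).trans (min_le_left _ _))
      have k2 : x ≤ e2 := hx.trans ((min_le_left _ _).trans (min_le_right _ _))
      have k3 : x ≤ e1 / s2 := hx.trans ((min_le_right _ _).trans (min_le_left _ _))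
      have k4 : x ≤ e2 / s1 := hx.trans ((min_le_right _ _).trans (min_le_right _ _))
      rw [le_div_iff₀ hs2] at k3
      rw [le_div_iff₀ hs1] at k4
      rw [act_mul, act_mul, H1 x hx0 k1, H2 x hx0 k2, H1 _ (by positivity) (by linarith),
        H2 _ (by positivity) (by linarith)]
      ring
    · intro x hx0 hx
      have k1 : x ≤ e3 := hx.trans ((min_le_left _ _).trans (min_le_left _ _))
      have k2 : x ≤ e4 := hx.trans ((min_le_left _ _).trans (min_le_right _ _))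
      have k3 : x ≤ e3 / s4 := hx.trans ((min_le_right _ _).trans (min_le_left _ _))
      have k4 : x ≤ e4 / s3 := hx.trans ((min_le_right _ _).trans (min_le_right _ _))
      rw [le_div_iff₀ hs4] at k3
      rw [le_div_iff₀ hs3] at k4
      rw [act_mul, act_mul, H3 x hx0 k1, H4 x hx0 k2, H3 _ (by positivity) (by linarith),
        H4 _ (by positivity) (by linarith)]
      ring
  filter_upwards [(tendsto_act ρ ha (h * g)⁻¹).eventually key] with x hx
  rw [act_mul, hx, act_self_inv]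

/-- The left end point of the first component on which `v` acts nontrivially. -/
structure LeftEnd (v : H) (a : ℝ) : Prop where
  mem : a ∈ Fx ρ
  idl : ∀ x, x ≤ a → ρ v x = x
  max : ∀ b ∈ Fx ρ, (∀ x, x ≤ b → ρ v x = x) → b ≤ a
  gap : ∃ ε > 0, ∀ x, a < x → x < a + ε → x ∉ Fx ρ

lemma Fx_out (hρ : ∀ g, OneSided (ρ g)) (x : ℝ) (hx : x ∉ Set.Ioo (0 : ℝ) 1) : x ∈ Fx ρ :=
  fun g => (hρ g).out x hx

lemma lt_one_of_idl (hρ : ∀ g, OneSided (ρ g)) {L : Subgroup H}
    (hinj : ∀ l ∈ L, ρ l = 1 → l = 1) {v : H} (hv : v ∈ L) (hv1 : v ≠ 1) {b : ℝ}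
    (hb : ∀ x, x ≤ b → ρ v x = x) : b < 1 := by
  by_contra hn
  push Not at hn
  apply hv1
  apply hinj v hv
  ext x
  show ρ v x = x
  rcases le_total x b with h | h
  · exact hb x h
  · exact (hρ v).out x (fun k => by linarith [k.2])

lemma exists_leftEnd (hρ : ∀ g, OneSided (ρ g)) {L : Subgroup H}
    (hinj : ∀ l ∈ L, ρ l = 1 → l = 1) {v : H} (hv : NN ρ L v) (hv1 : v ≠ 1) :
    ∃ a, LeftEnd ρ v a := by
  set A : Set ℝ := {b | b ∈ Fx ρ ∧ ∀ x, x ≤ b → ρ v x = x} with hA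
  have h0 : (0 : ℝ) ∈ A := by
    refine ⟨Fx_out ρ hρ 0 (fun k => lt_irrefl _ k.1), fun x hx => (hρ v).out x (fun k => ?_)⟩
    exact absurd k.1 (not_lt.mpr hx)
  have hbdd : BddAbove A := ⟨1, fun b hb => (lt_one_of_idl ρ hρ hinj hv.1 hv1 hb.2).le⟩
  have hmem : sSup A ∈ Fx ρ := by
    have h1 : sSup A ∈ closure A := csSup_mem_closure ⟨0, h0⟩ hbdd
    have h2 : closure A ⊆ Fx ρ := closure_minimal (fun b hb => hb.1) (isClosed_Fx ρ)
    exact h2 h1
  have hidl : ∀ x, x ≤ sSup A → ρ v x = x := by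
    intro x hx
    rcases hx.lt_or_eq with h | h
    · obtain ⟨b, hb, hxb⟩ := exists_lt_of_lt_csSup ⟨0, h0⟩ h
      exact hb.2 x hxb.le
    · rw [h]; exact hmem v
  refine ⟨sSup A, hmem, hidl, fun b hb hb2 => le_csSup hbdd ⟨hb, hb2⟩, ?_⟩
  obtain ⟨ε, hε, hball⟩ := Metric.eventually_nhds_iff.mp (hv.2 _ hmem)
  refine ⟨ε, hε, fun x hx1 hx2 hx3 => ?_⟩
  have : x ∈ A := by
    refine ⟨hx3, fun y hy => ?_⟩
    rcases le_total y (sSup A) with h | h
    · exact hidl y h
    · apply hball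
      rw [Real.dist_eq, abs_lt]
      constructor <;> linarith
  have := le_csSup hbdd this
  linarith

lemma trivial_of_gens {S : Set H} (hS : Subgroup.closure S = ⊤) {J : Set ℝ}
    (h : ∀ s ∈ S, ∀ x ∈ J, ρ s x = x) : J ⊆ Fx ρ := by
  intro x hx g
  have hg : g ∈ Subgroup.closure S := by rw [hS]; trivial
  induction hg using Subgroup.closure_induction with
  | mem s hs => exact h s hs x hx
  | one => exact act_one ρ x
  | mul a b _ _ ha hb => rw [act_mul, hb, ha]
  | inv a _ ha =>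
    conv_lhs => rw [← ha]
    exact act_inv_self ρ a x

lemma exists_common_left (hρ : ∀ g, OneSided (ρ g)) (S : Finset H) (c : ℝ) :
    ∃ ε > 0, ∀ s ∈ S, ∃ σ > 0, ∀ x, 0 ≤ x → x ≤ ε → ρ s (c - x) = ρ s c - σ * x := by
  classical
  induction S using Finset.induction_on with
  | empty => exact ⟨1, one_pos, by simp⟩
  | insert a s _ ih =>
    obtain ⟨ε, hε, h⟩ := ih
    obtain ⟨ε', hε', σ, hσ, h'⟩ := (hρ a).left c
    refine ⟨min ε ε', lt_min hε hε', ?_⟩
    intro z hz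
    rcases Finset.mem_insert.mp hz with rfl | hz
    · exact ⟨σ, hσ, fun x hx hx2 => h' x hx (hx2.trans (min_le_right _ _))⟩
    · obtain ⟨σ', hσ', h''⟩ := h z hz
      exact ⟨σ', hσ', fun x hx hx2 => h'' x hx (hx2.trans (min_le_left _ _))⟩

lemma exists_common_right (hρ : ∀ g, OneSided (ρ g)) (S : Finset H) (c : ℝ) :
    ∃ ε > 0, ∀ s ∈ S, ∃ σ > 0, ∀ x, 0 ≤ x → x ≤ ε → ρ s (c + x) = ρ s c + σ * x := by
  classical
  induction S using Finset.induction_on with
  | empty => exact ⟨1, one_pos, by simp⟩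
  | insert a s _ ih =>
    obtain ⟨ε, hε, h⟩ := ih
    obtain ⟨ε', hε', σ, hσ, h'⟩ := (hρ a).right c
    refine ⟨min ε ε', lt_min hε hε', ?_⟩
    intro z hz
    rcases Finset.mem_insert.mp hz with rfl | hz
    · exact ⟨σ, hσ, fun x hx hx2 => h' x hx (hx2.trans (min_le_right _ _))⟩
    · obtain ⟨σ', hσ', h''⟩ := h z hz
      exact ⟨σ', hσ', fun x hx hx2 => h'' x hx (hx2.trans (min_le_left _ _))⟩

/-- The maximal component. -/
lemma exists_max (hρ : ∀ g, OneSided (ρ g)) {L : Subgroup H}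
    (hinj : ∀ l ∈ L, ρ l = 1 → l = 1) (S : Finset H)
    (hS : Subgroup.closure (S : Set H) = ⊤) (hne : ∃ w, NN ρ L w ∧ w ≠ 1) :
    ∃ v a β, NN ρ L v ∧ v ≠ 1 ∧ a ∈ Fx ρ ∧ β ∈ Fx ρ ∧ a < β ∧
      (∀ x, a < x → x < β → x ∉ Fx ρ) ∧ (∀ x, x ≤ a → ρ v x = x) ∧
      ∀ w, NN ρ L w → (∀ x, x ≤ β → ρ w x = x) → w = 1 := by
  set A : Set ℝ := {a | ∃ v, NN ρ L v ∧ v ≠ 1 ∧ LeftEnd ρ v a} with hA
  obtain ⟨w, hw, hw1⟩ := hne
  obtain ⟨a0, ha0⟩ := exists_leftEnd ρ hρ hinj hw hw1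
  have hAne : A.Nonempty := ⟨a0, w, hw, hw1, ha0⟩
  have hbdd : BddAbove A := ⟨1, fun b ⟨v, hv, hv1, hb⟩ =>
    (lt_one_of_idl ρ hρ hinj hv.1 hv1 hb.idl).le⟩
  have hsupmem : sSup A ∈ Fx ρ := by
    have h1 : sSup A ∈ closure A := csSup_mem_closure hAne hbdd
    have h2 : closure A ⊆ Fx ρ :=
      closure_minimal (fun b ⟨v, _, _, hb⟩ => hb.mem) (isClosed_Fx ρ)
    exact h2 h1
  have hmax : sSup A ∈ A := by
    by_contra hn
    obtain ⟨ε, hε, hc⟩ := exists_common_left ρ hρ S (sSup A)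
    have hlt : ∀ b ∈ A, b < sSup A := fun b hb =>
      lt_of_le_of_ne (le_csSup hbdd hb) (fun h => hn (h ▸ hb))
    obtain ⟨a₁, h1, h1'⟩ := exists_lt_of_lt_csSup hAne
      (show sSup A - ε < sSup A by linarith)
    obtain ⟨a₂, h2, h2'⟩ := exists_lt_of_lt_csSup hAne (hlt a₁ h1)
    have h2'' := hlt a₂ h2
    obtain ⟨v₁, -, -, hL₁⟩ := h1
    obtain ⟨v₂, -, -, hL₂⟩ := h2
    have htriv : Set.Icc (sSup A - ε) (sSup A) ⊆ Fx ρ := by
      apply trivial_of_gens ρ hS
      intro s hs x hx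
      obtain ⟨σ, hσ, hσ'⟩ := hc s (Finset.mem_coe.mp hs)
      have e1 := hσ' (sSup A - a₂) (by linarith) (by linarith)
      rw [sub_sub_cancel, hL₂.mem s, hsupmem s] at e1
      have e2 : σ = 1 := by
        have : (σ - 1) * (sSup A - a₂) = 0 := by linarith
        rcases mul_eq_zero.mp this with h | h
        · linarith
        · linarith
      have e3 := hσ' (sSup A - x) (by linarith [hx.2]) (by linarith [hx.1])
      rw [sub_sub_cancel, hsupmem s, e2] at e3
      linarith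
    obtain ⟨ε₁, hε₁, hgap⟩ := hL₁.gap
    have hlt1 : a₁ < sSup A := h2'.trans h2''
    refine hgap (a₁ + min (ε₁ / 2) (sSup A - a₁)) ?_ ?_ (htriv ⟨?_, ?_⟩)
    · have : 0 < min (ε₁ / 2) (sSup A - a₁) := lt_min (by linarith) (by linarith)
      linarith
    · have := min_le_left (ε₁ / 2) (sSup A - a₁)
      linarith
    · have : 0 < min (ε₁ / 2) (sSup A - a₁) := lt_min (by linarith) (by linarith)
      linarith
    · have := min_le_right (ε₁ / 2) (sSup A - a₁)
      linarith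
  obtain ⟨v, hv, hv1, hLE⟩ := hmax
  set a := sSup A with ha
  have ha1 : a < 1 := lt_one_of_idl ρ hρ hinj hv.1 hv1 hLE.idl
  set B : Set ℝ := {b | b ∈ Fx ρ ∧ a < b} with hB
  have hBne : B.Nonempty := ⟨1, Fx_out ρ hρ 1 (fun k => lt_irrefl _ k.2), ha1⟩
  have hBbdd : BddBelow B := ⟨a, fun b hb => hb.2.le⟩
  obtain ⟨ε, hε, hgap⟩ := hLE.gap
  have hβ : a + ε ≤ sInf B := by
    apply le_csInf hBne
    intro b hb
    by_contra hn
    push Not at hn
    exact hgap b hb.2 hn hb.1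
  have hβmem : sInf B ∈ Fx ρ := by
    have h1 : sInf B ∈ closure B := csInf_mem_closure hBne hBbdd
    have h2 : closure B ⊆ Fx ρ := closure_minimal (fun b hb => hb.1) (isClosed_Fx ρ)
    exact h2 h1
  refine ⟨v, a, sInf B, hv, hv1, hLE.mem, hβmem, by linarith, ?_, hLE.idl, ?_⟩
  · intro x hx1 hx2 hx3
    have := csInf_le hBbdd (show x ∈ B from ⟨hx3, hx1⟩)
    linarith
  · intro w hw hw2
    by_contra hw1
    obtain ⟨a', ha'⟩ := exists_leftEnd ρ hρ hinj hw hw1
    have k1 := ha'.max _ hβmem hw2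
    have k2 : a' ≤ a := le_csSup hbdd ⟨w, hw, hw1, ha'⟩
    linarith

end

end Pool.Agent.HS73
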