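import Pool.Agent.HS73.PL1
import Pool.Agent.HS73.OfRel

/-!
Groups of piecewise linear homeomorphisms satisfy the half-space criterion.
-/

open Filter Topology

namespace Pool.Agent.HS73

section

variable {H : Type*} [Group H] (ρ : H →* (ℝ ≃o ℝ))

/-- The element `v` of the maximal component can be moved into any neighbourhood of the left end
point. -/
lemma exists_small {L : Subgroup H} (hL : L.Normal)
    {v : H} {a β c : ℝ} (hv : NN ρ L v) (hv1 : v ≠ 1) (ha : a ∈ Fx ρ) (hβ : β ∈ Fx ρ)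
    (haβ : a < β) (hcomp : ∀ x, a < x → x < β → x ∉ Fx ρ) (hidl : ∀ x, x ≤ a → ρ v x = x)
    (hc : 0 < c) :
    ∃ w, NN ρ L w ∧ w ≠ 1 ∧ (∀ x, x ≤ a → ρ w x = x) ∧
      (∀ x, a + c ≤ x → x ≤ β → ρ w x = x) := by
  -- a point near β to the right of which v is trivial
  obtain ⟨ε, hε, hball⟩ := Metric.eventually_nhds_iff.mp (hv.2 β hβ)
  set b₁ : ℝ := max (β - ε / 2) ((a + β) / 2) with hb₁
  have hb₁a : a < b₁ := lt_of_lt_of_le (by linarith) (le_max_right _ _)
  have hb₁β : b₁ < β := max_lt (by linarith) (by linarith)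
  have hvb : ∀ x, b₁ ≤ x → x ≤ β → ρ v x = x := by
    intro x h1 h2
    apply hball
    have : β - ε / 2 ≤ b₁ := le_max_left _ _
    rw [Real.dist_eq, abs_lt]
    constructor <;> linarith
  -- the infimum of the orbit
  set O : Set ℝ := Set.range (fun g => ρ g b₁) with hO
  have hOne : O.Nonempty := ⟨_, 1, rfl⟩
  have hOlow : ∀ y ∈ O, a < y := by
    rintro _ ⟨g, rfl⟩
    have : ρ g a < ρ g b₁ := (ρ g).strictMono hb₁a
    rwa [ha g] at this
  have hObdd : BddBelow O := ⟨a, fun y hy => (hOlow y hy).le⟩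
  have hinf_le : sInf O ≤ b₁ := csInf_le hObdd ⟨1, act_one ρ b₁⟩
  have hle : a ≤ sInf O := le_csInf hOne (fun y hy => (hOlow y hy).le)
  have hfix : sInf O ∈ Fx ρ := by
    have hge : ∀ g, sInf O ≤ ρ g (sInf O) := by
      intro g
      -- ρ g⁻¹ (sInf O) ≤ every element, so ρ g⁻¹ (sInf O) ≤ sInf O
      have h1 : ρ g⁻¹ (sInf O) ≤ sInf O := by
        apply le_csInf hOne
        rintro _ ⟨h, rfl⟩
        have h2 : sInf O ≤ ρ (g * h) b₁ := csInf_le hObdd ⟨g * h, rfl⟩
        have h3 : ρ g⁻¹ (sInf O) ≤ ρ g⁻¹ (ρ (g * h) b₁) := (ρ g⁻¹).monotone h2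
        rw [← act_mul, inv_mul_cancel_left] at h3
        exact h3
      have h4 : ρ g (ρ g⁻¹ (sInf O)) ≤ ρ g (sInf O) := (ρ g).monotone h1
      rwa [act_self_inv] at h4
    intro g
    apply le_antisymm _ (hge g)
    have h5 := (ρ g).monotone (hge g⁻¹)
    rwa [act_self_inv] at h5
  have hinf : sInf O = a := by
    by_contra hn
    exact hcomp _ (lt_of_le_of_ne hle (Ne.symm hn)) (by linarith) hfix
  obtain ⟨_, ⟨g, rfl⟩, hg⟩ := exists_lt_of_csInf_lt hOne (show sInf O < a + c by linarith)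
  have hg' : ρ g b₁ < a + c := hg
  refine ⟨g * v * g⁻¹, NN.conj ρ hL hv g, ?_, ?_, ?_⟩
  · intro h
    apply hv1
    have : g * v = g := by
      calc g * v = (g * v * g⁻¹) * g := by group
        _ = g := by rw [h, one_mul]
    simpa using this
  · intro x hx
    have h1 : ρ g⁻¹ x ≤ a := by
      have := (ρ g⁻¹).monotone hx
      rwa [ha g⁻¹] at this
    rw [act_mul, act_mul, hidl _ h1, act_self_inv]
  · intro x hx1 hx2
    have h1 : b₁ ≤ ρ g⁻¹ x := by
      have := (ρ g⁻¹).monotone (hg'.le.trans hx1)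
      rwa [act_inv_self] at this
    have h2 : ρ g⁻¹ x ≤ β := by
      have := (ρ g⁻¹).monotone hx2
      rwa [hβ g⁻¹] at this
    rw [act_mul, act_mul, hvb _ h1 h2, act_self_inv]

/-- An element contracting on the right of `a`. -/
lemma exists_contraction (hρ : ∀ g, OneSided (ρ g)) (S : Finset H)
    (hS : Subgroup.closure (S : Set H) = ⊤) {a β : ℝ} (ha : a ∈ Fx ρ) (haβ : a < β)
    (hcomp : ∀ x, a < x → x < β → x ∉ Fx ρ) :
    ∃ t, ∃ σ, 0 < σ ∧ σ < 1 ∧ ∃ c > 0, ∀ x, 0 ≤ x → x ≤ c → ρ t (a + x) = a + σ * x := by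
  obtain ⟨ε, hε, hc⟩ := exists_common_right ρ hρ S a
  by_contra hn
  push Not at hn
  have htriv : Set.Icc a (a + ε) ⊆ Fx ρ := by
    apply trivial_of_gens ρ hS
    intro s hs x hx
    obtain ⟨σ, hσ, hσ'⟩ := hc s (Finset.mem_coe.mp hs)
    rw [ha s] at hσ'
    have hσ1 : σ = 1 := by
      rcases lt_trichotomy σ 1 with h | h | h
      · exfalso
        obtain ⟨x, hx0, hx, hne⟩ := hn s σ hσ h ε hε
        exact hne (hσ' x hx0 hx)
      · exact h
      · exfalso
        obtain ⟨x, hx0, hx, hne⟩ := hn s⁻¹ σ⁻¹ (inv_pos.mpr hσ) (inv_lt_one_of_one_lt₀ h) ε hε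
        apply hne
        have h0 : 0 ≤ σ⁻¹ * x := by positivity
        have h1 : σ⁻¹ * x ≤ ε := by
          have : σ⁻¹ * x ≤ 1 * x :=
            mul_le_mul_of_nonneg_right (inv_lt_one_of_one_lt₀ h).le hx0
          linarith
        have h2 := hσ' (σ⁻¹ * x) h0 h1
        have h3 : σ * (σ⁻¹ * x) = x := by field_simp
        rw [h3] at h2
        rw [← h2, act_inv_self]
    have := hσ' (x - a) (by linarith [hx.1]) (by linarith [hx.2])
    rw [hσ1, add_sub_cancel, one_mul, add_sub_cancel] at this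
    exact this
  refine hcomp (a + min ε ((β - a) / 2)) ?_ ?_ (htriv ⟨?_, ?_⟩)
  · have : 0 < min ε ((β - a) / 2) := lt_min hε (by linarith)
    linarith
  · have := min_le_right ε ((β - a) / 2)
    linarith
  · have : 0 < min ε ((β - a) / 2) := lt_min hε (by linarith)
    linarith
  · have := min_le_left ε ((β - a) / 2)
    linarith

/-- the germ character: `ρ g⁻¹ (a + x) = a + exp (τ g) x` for small `x ≥ 0`. -/
lemma exists_tau (hρ : ∀ g, OneSided (ρ g)) {a : ℝ} (ha : a ∈ Fx ρ) (g : H) :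
    ∃ r : ℝ, ∃ ε > 0, ∀ x, 0 ≤ x → x ≤ ε → ρ g⁻¹ (a + x) = a + Real.exp r * x := by
  obtain ⟨ε, hε, s, hs, h⟩ := (hρ g⁻¹).right a
  rw [ha g⁻¹] at h
  exact ⟨Real.log s, ε, hε, by rw [Real.exp_log hs]; exact h⟩

lemma tau_unique {a r r' ε ε' : ℝ} (hε : 0 < ε) (hε' : 0 < ε') (f : ℝ → ℝ)
    (h : ∀ x, 0 ≤ x → x ≤ ε → f (a + x) = a + Real.exp r * x)
    (h' : ∀ x, 0 ≤ x → x ≤ ε' → f (a + x) = a + Real.exp r' * x) : r = r' := by
  have hm : 0 < min ε ε' := lt_min hε hε'
  have h1 := h (min ε ε') hm.le (min_le_left _ _)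
  have h2 := h' (min ε ε') hm.le (min_le_right _ _)
  rw [h1] at h2
  have h3 : Real.exp r * min ε ε' = Real.exp r' * min ε ε' := by linarith
  exact Real.exp_injective (mul_right_cancel₀ hm.ne' h3)

/-- The relation data of a fixed end point. -/
lemma exists_germData (hρ : ∀ g, OneSided (ρ g)) {a : ℝ} (ha : a ∈ Fx ρ) (c : ℝ)
    (hc : 0 < c) : ∃ E : RelData H,
      (∀ s g, E.L s g ↔ 0 ≤ s ∧ E.τ g ≤ s ∧
        ∀ x, 0 ≤ x → x ≤ c * Real.exp (-s) → ρ g⁻¹ (a + x) = a + Real.exp (E.τ g) * x) ∧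
      ∀ g, ∃ ε > 0, ∀ x, 0 ≤ x → x ≤ ε → ρ g⁻¹ (a + x) = a + Real.exp (E.τ g) * x := by
  classical
  choose τ ε hε hτ using exists_tau ρ hρ ha
  refine ⟨
  { τ := τ
    L := fun s g => 0 ≤ s ∧ τ g ≤ s ∧
      ∀ x, 0 ≤ x → x ≤ c * Real.exp (-s) → ρ g⁻¹ (a + x) = a + Real.exp (τ g) * x
    hτ := by
      intro g h
      have hpos : 0 < ε h / Real.exp (τ g) := div_pos (hε h) (Real.exp_pos _)
      refine tau_unique (hε (g * h)) (lt_min (hε g) hpos) (fun x => ρ (g * h)⁻¹ x) (hτ (g * h)) ?_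
      intro x hx0 hx
      have k1 : x ≤ ε g := hx.trans (min_le_left _ _)
      have k2 : x ≤ ε h / Real.exp (τ g) := hx.trans (min_le_right _ _)
      rw [le_div_iff₀ (Real.exp_pos _)] at k2
      show ρ (g * h)⁻¹ (a + x) = _
      rw [mul_inv_rev, act_mul, hτ g x hx0 k1, hτ h _ (by positivity) (by linarith), Real.exp_add]
      ring
    nonneg := fun s g h => h.1
    mul := by
      rintro s g h ⟨g0, g1, g2⟩ ⟨h0, h1, h2⟩
      have hadd : τ (g * h) = τ g + τ h := by
        have hpos : 0 < ε h / Real.exp (τ g) := div_pos (hε h) (Real.exp_pos _)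
        refine tau_unique (hε (g * h)) (lt_min (hε g) hpos) (fun x => ρ (g * h)⁻¹ x)
          (hτ (g * h)) ?_
        intro x hx0 hx
        have k1 : x ≤ ε g := hx.trans (min_le_left _ _)
        have k2 : x ≤ ε h / Real.exp (τ g) := hx.trans (min_le_right _ _)
        rw [le_div_iff₀ (Real.exp_pos _)] at k2
        show ρ (g * h)⁻¹ (a + x) = _
        rw [mul_inv_rev, act_mul, hτ g x hx0 k1, hτ h _ (by positivity) (by linarith),
          Real.exp_add]
        ring
      refine ⟨g0, by rw [hadd]; linarith, ?_⟩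
      intro x hx0 hx
      have k : Real.exp (τ g) * x ≤ c * Real.exp (-(s - τ g)) := by
        have e : -(s - τ g) = τ g + -s := by ring
        rw [e, Real.exp_add]
        have := mul_le_mul_of_nonneg_left hx (Real.exp_pos (τ g)).le
        linarith
      rw [mul_inv_rev, act_mul, g2 x hx0 hx, h2 _ (by positivity) k, hadd, Real.exp_add]
      ring
    inv := by
      rintro s g ⟨g0, g1, g2⟩
      have hinv : ∀ x, 0 ≤ x → x ≤ c * Real.exp (-(s - τ g)) →
          ρ g⁻¹⁻¹ (a + x) = a + Real.exp (-τ g) * x := by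
        intro x hx0 hx
        have k0 : 0 ≤ Real.exp (-τ g) * x := by positivity
        have k1 : Real.exp (-τ g) * x ≤ c * Real.exp (-s) := by
          have e : -(s - τ g) = τ g + -s := by ring
          rw [e, Real.exp_add] at hx
          have h1 := mul_le_mul_of_nonneg_left hx (Real.exp_pos (-τ g)).le
          have h2 : Real.exp (-τ g) * Real.exp (τ g) = 1 := by
            rw [← Real.exp_add]; simp
          calc Real.exp (-τ g) * x ≤ Real.exp (-τ g) * (c * (Real.exp (τ g) * Real.exp (-s))) := h1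
            _ = (Real.exp (-τ g) * Real.exp (τ g)) * (c * Real.exp (-s)) := by ring
            _ = c * Real.exp (-s) := by rw [h2, one_mul]
        have k2 := g2 _ k0 k1
        have k3 : Real.exp (τ g) * (Real.exp (-τ g) * x) = x := by
          rw [← mul_assoc, ← Real.exp_add]; simp
        rw [k3] at k2
        rw [← k2, inv_inv, act_self_inv]
      have hneg : τ g⁻¹ = -τ g := by
        refine tau_unique (hε g⁻¹) (show 0 < c * Real.exp (-(s - τ g)) by positivity)
          (fun x => ρ g⁻¹⁻¹ x) (hτ g⁻¹) hinv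
      exact ⟨by linarith, by rw [hneg]; linarith, by rw [hneg]; exact hinv⟩
    ex := by
      intro g
      refine ⟨max (max 0 (τ g)) (Real.log (c / ε g)), (le_max_left _ _).trans (le_max_left _ _),
        (le_max_right _ _).trans (le_max_left _ _), ?_⟩
      intro x hx0 hx
      apply hτ g x hx0
      refine hx.trans ?_
      have hdiv : 0 < c / ε g := div_pos hc (hε g)
      have h1 : Real.exp (-(max (max 0 (τ g)) (Real.log (c / ε g)))) ≤
          Real.exp (-(Real.log (c / ε g))) := by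
        apply Real.exp_le_exp.mpr
        linarith [le_max_right (max 0 (τ g)) (Real.log (c / ε g))]
      rw [Real.exp_neg (Real.log _), Real.exp_log hdiv] at h1
      calc c * Real.exp (-(max (max 0 (τ g)) (Real.log (c / ε g)))) ≤ c * (c / ε g)⁻¹ :=
            mul_le_mul_of_nonneg_left h1 hc.le
        _ = ε g := by rw [inv_div]; field_simp
    one := by
      have h0 : τ 1 = 0 := by
        refine tau_unique (hε 1) one_pos (fun x => ρ 1⁻¹ x) (hτ 1) ?_
        intro x _ _
        show ρ 1⁻¹ (a + x) = _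
        rw [inv_one, act_one, Real.exp_zero, one_mul]
      refine ⟨le_rfl, h0.le, ?_⟩
      intro x _ _
      rw [inv_one, act_one, h0, Real.exp_zero, one_mul]
    mono := by
      rintro s s' g ⟨g0, g1, g2⟩ hss
      refine ⟨g0.trans hss, g1.trans hss, fun x hx0 hx => g2 x hx0 (hx.trans ?_)⟩
      apply mul_le_mul_of_nonneg_left _ hc.le
      apply Real.exp_le_exp.mpr
      linarith }, fun s g => Iff.rfl, fun g => ⟨ε g, hε g, hτ g⟩⟩

end

end Pool.Agent.HS73
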