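import Pool.Agent.HS73.PL2
import Pool.Agent.HS73.Main

/-!
Doubling for groups with a finite index subgroup acting by piecewise linear homeomorphisms.
-/

open Filter Topology Pointwise

namespace Pool.Agent.HS73

theorem pl_doubling {G : Type*} [Group G] [DecidableEq G] (H : Subgroup G) (hfi : H.FiniteIndex)
    (ρ : H →* (ℝ ≃o ℝ)) (hPL : ∀ h, IsPL (ρ h)) (L : Subgroup H) (hL : L.Normal)
    (hinj : ∀ l ∈ L, ρ l = 1 → l = 1) (hnc : ∃ a ∈ L, ∃ b ∈ L, a * b ≠ b * a)
    (T : Finset G) (h1T : (1 : G) ∈ T) (hgen : ∀ g : G, ∃ n : ℕ, g ∈ T ^ n) :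
    ∃ C : ℕ, ∀ n : ℕ, 2 * (T ^ n).card ≤ (T ^ (n + C)).card := by
  classical
  have hρ : ∀ g, OneSided (ρ g) := fun g => (hPL g).oneSided
  -- H is finitely generated
  have hclT : Subgroup.closure (T : Set G) = ⊤ := by
    rw [eq_top_iff]
    intro g _
    obtain ⟨n, hn⟩ := hgen g
    have : ∀ n, ∀ g ∈ T ^ n, g ∈ Subgroup.closure (T : Set G) := by
      intro n
      induction n with
      | zero =>
        intro g hg
        have : g = 1 := by simpa using hg
        rw [this]; exact Subgroup.one_mem _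
      | succ n ih =>
        intro g hg
        rw [pow_succ] at hg
        obtain ⟨x, hx, s, hs, rfl⟩ := Finset.mem_mul.mp hg
        exact Subgroup.mul_mem _ (ih x hx) (Subgroup.subset_closure (Finset.mem_coe.mpr hs))
    exact this n g hn
  have : Group.FG G := Group.fg_iff.mpr ⟨(T : Set G), hclT, T.finite_toSet⟩
  have := hfi
  have hHfg : Group.FG H := Subgroup.fg_of_index_ne_zero H
  obtain ⟨S, hS⟩ := Group.FG.out (G := H)
  -- a nontrivial element of NN
  obtain ⟨x, hx, y, hy, hxy⟩ := hnc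
  have hne : ∃ w, NN ρ L w ∧ w ≠ 1 := by
    refine ⟨x * y * (y * x)⁻¹, NN.of_comm ρ hρ hx hy, fun h => hxy ?_⟩
    exact mul_inv_eq_one.mp h
  obtain ⟨v, a, β, hv, hv1, ha, hβ, haβ, hcomp, hidl, hmax⟩ := exists_max ρ hρ hinj S hS hne
  obtain ⟨t, σ, hσ0, hσ1, c, hc, ht⟩ := exists_contraction ρ hρ S hS ha haβ hcomp
  obtain ⟨w, hw, hw1, hwl, hwr⟩ := exists_small ρ hL hv hv1 ha hβ haβ hcomp hidl hc
  have hcβ : a + c < β := by
    by_contra hn
    push Not at hn
    have h1 := ht (β - a) (by linarith) (by linarith)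
    rw [add_sub_cancel, hβ t] at h1
    nlinarith
  obtain ⟨E, hE, hEτ⟩ := exists_germData ρ hρ ha c hc
  have hσinv : Real.exp (Real.log σ⁻¹) = σ⁻¹ := Real.exp_log (inv_pos.mpr hσ0)
  have htinv : ∀ x, 0 ≤ x → x ≤ c * σ → ρ t⁻¹ (a + x) = a + σ⁻¹ * x := by
    intro x hx0 hx
    have h0 : 0 ≤ σ⁻¹ * x := by positivity
    have h1 : σ⁻¹ * x ≤ c := by
      rw [inv_mul_le_iff₀ hσ0]; linarith
    have h2 := ht _ h0 h1
    have h3 : σ * (σ⁻¹ * x) = x := by field_simp
    rw [h3] at h2
    rw [← h2, act_inv_self]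
  have hτt : E.τ t = Real.log σ⁻¹ := by
    obtain ⟨ε, hε, h⟩ := hEτ t
    exact tau_unique hε (show 0 < c * σ by positivity) (fun x => ρ t⁻¹ x) h
      (by rw [hσinv]; exact htinv)
  have hτt0 : 0 < E.τ t := by
    rw [hτt]; exact Real.log_pos (one_lt_inv_iff₀.mpr ⟨hσ0, hσ1⟩)
  have hmt : E.m t ≤ E.τ t := by
    apply E.m_le
    rw [hE]
    refine ⟨hτt0.le, le_rfl, ?_⟩
    rw [hτt, hσinv, Real.exp_neg, hσinv, inv_inv]
    exact htinv
  -- elements with τ = 0 and m ≤ 0
  have hfix0 : ∀ g, E.τ g = 0 → E.m g ≤ 0 → ∀ x, a ≤ x → x < a + c → ρ g x = x := by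
    intro g hg hm x hx1 hx2
    have key : ρ g⁻¹ x = x := by
      rcases hx1.eq_or_lt with h | h
      · rw [← h]; exact ha g⁻¹
      · have hpos : 0 < (x - a) / c := div_pos (by linarith) hc
        have hlt1 : (x - a) / c < 1 := by rw [div_lt_one hc]; linarith
        have hs : 0 < -Real.log ((x - a) / c) := by
          have := Real.log_neg hpos hlt1
          linarith
        have hLs : E.L (-Real.log ((x - a) / c)) g := E.rel_of_lt (lt_of_le_of_lt hm hs)
        rw [hE] at hLs
        have h2 := hLs.2.2 (x - a) (by linarith) (by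
          rw [neg_neg, Real.exp_log hpos]
          apply le_of_eq; field_simp)
        rw [hg, Real.exp_zero, one_mul, add_sub_cancel] at h2
        exact h2
    conv_lhs => rw [← key]
    exact act_self_inv ρ g x
  have hτinv : ∀ g, E.τ g⁻¹ = - E.τ g := E.τ_inv
  have hfixc : ∀ g, E.τ g = 0 → E.m g ≤ 0 → ρ g (a + c) = a + c := by
    have hge : ∀ g, E.τ g = 0 → E.m g ≤ 0 → a + c ≤ ρ g (a + c) := by
      intro g hg hm
      apply le_of_forall_lt
      intro y hy
      have h1 : y ≤ max y ((a + (a + c)) / 2) := le_max_left _ _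
      have h2 : max y ((a + (a + c)) / 2) < a + c := max_lt hy (by linarith)
      have h3 : a ≤ max y ((a + (a + c)) / 2) := le_trans (by linarith) (le_max_right _ _)
      have h4 := hfix0 g hg hm _ h3 h2
      calc y ≤ max y ((a + (a + c)) / 2) := h1
        _ = ρ g (max y ((a + (a + c)) / 2)) := h4.symm
        _ < ρ g (a + c) := (ρ g).strictMono h2
    intro g hg hm
    apply le_antisymm _ (hge g hg hm)
    have hm' : E.m g⁻¹ ≤ 0 := by
      have := E.m_inv_le g
      linarith
    have h5 := (ρ g).monotone (hge g⁻¹ (by rw [hτinv, hg, neg_zero]) hm')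
    rwa [act_self_inv] at h5
  have hfix : ∀ g, E.τ g = 0 → E.m g ≤ 0 → ∀ x, a ≤ x → x ≤ a + c → ρ g x = x := by
    intro g hg hm x hx1 hx2
    rcases hx2.lt_or_eq with h | h
    · exact hfix0 g hg hm x hx1 h
    · rw [h]; exact hfixc g hg hm
  have hτw : E.τ w = 0 := by
    obtain ⟨ε, hε, h⟩ := hEτ w
    obtain ⟨ε', hε', hball⟩ := Metric.eventually_nhds_iff.mp (hw.2 a ha)
    refine tau_unique hε (show 0 < ε' / 2 by linarith) (fun x => ρ w⁻¹ x) h ?_
    intro x hx0 hx
    have h1 : ρ w (a + x) = a + x := by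
      apply hball
      rw [Real.dist_eq, add_sub_cancel_left, abs_of_nonneg hx0]
      linarith
    show ρ w⁻¹ (a + x) = _
    rw [Real.exp_zero, one_mul]
    conv_lhs => rw [← h1]
    exact act_inv_self ρ w (a + x)
  have hmw : 0 < E.m w := by
    by_contra hn
    push Not at hn
    apply hw1
    apply hmax w hw
    intro x hx
    rcases le_total x a with h | h
    · exact hwl x h
    · rcases le_total x (a + c) with h' | h'
      · exact hfix w hτw hn x h h'
      · exact hwr x h' hx
  have hF : ∀ k, E.τ k = 0 → E.m k ≤ 0 → E.m (w⁻¹ * k * w) ≤ 0 →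
      k * w * k⁻¹ ∈ ({w} : Finset H) := by
    intro k hk hkm _
    rw [Finset.mem_singleton]
    have hz : NN ρ L (k * w * k⁻¹ * w⁻¹) := NN.comm ρ hL hw k
    have hcomm : ∀ y, y ≤ β → ρ (k * w * k⁻¹) y = ρ w y := by
      intro y hy
      rw [act_mul, act_mul]
      rcases le_total y a with h | h
      · have h1 : ρ k⁻¹ y ≤ a := by
          have := (ρ k⁻¹).monotone h
          rwa [ha k⁻¹] at this
        rw [hwl _ h1, act_self_inv, hwl _ h]
      · rcases le_total y (a + c) with h' | h'
        · have h1 : ρ k⁻¹ y = y := by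
            conv_lhs => rw [← hfix k hk hkm y h h']
            exact act_inv_self ρ k y
          rw [h1]
          apply hfix k hk hkm
          · have := (ρ w).monotone h
            rwa [ha w] at this
          · have := (ρ w).monotone h'
            rwa [hwr (a + c) le_rfl hcβ.le] at this
        · have h1 : a + c ≤ ρ k⁻¹ y := by
            have h2 := (ρ k⁻¹).monotone h'
            have h3 : ρ k⁻¹ (a + c) = a + c := by
              conv_lhs => rw [← hfixc k hk hkm]
              exact act_inv_self ρ k (a + c)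
            rwa [h3] at h2
          have h4 : ρ k⁻¹ y ≤ β := by
            have := (ρ k⁻¹).monotone hy
            rwa [hβ k⁻¹] at this
          rw [hwr _ h1 h4, act_self_inv, hwr _ h' hy]
    have hz1 : k * w * k⁻¹ * w⁻¹ = 1 := by
      apply hmax _ hz
      intro x hx
      have h1 : ρ w⁻¹ x ≤ β := by
        have := (ρ w⁻¹).monotone hx
        rwa [hβ w⁻¹] at this
      rw [act_mul, hcomm _ h1, act_self_inv]
    exact mul_inv_eq_one.mp hz1
  exact doubling E.toConf hfi t hτt0 hmt w hτw hmw {w} hF T h1T hgen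

end Pool.Agent.HS73
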